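import Pool.Agent.helper80.HM.SpecC

/-!
# Hereditarily monotone circuits (MP_069684), row EXP
-/

set_option autoImplicit false

namespace Pool.Agent.HM

open Finset Pool.Agent.helper38.Neg Pool.Agent.helper55.NT
open Pool.Agent.LN (HC)

private theorem EXP_aux (hSHN : SHN_stmt) {a n : ℕ} : ∀ {s : ℕ} (C : HCircuit a n s),
    Rel (∅ : Set (Fn n)) (5 * 2 ^ a * s) (5 * 2 ^ a * s) {g | ∃ i, g = fun x => C.val x i} := by
  intro s C
  induction C with
  | nil =>
    intro L q hL _
    refine ⟨L, q, hL, by omega, by omega, fun _ h => h, ?_⟩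
    rintro g ⟨i, rfl⟩
    exact Or.inr ⟨i, rfl⟩
  | @snoc s d C hd w φ ih =>
    have h1 := hSHN (n := n) d (∅ ∪ {g | ∃ i, g = fun x => C.val x i}) (fun j x => C.val x (w j)) φ
      (fun j => Or.inr ⟨w j, rfl⟩)
    have h2 := ih.trans h1
    have h3 : 5 * 2 ^ a * s + 5 * 2 ^ d ≤ 5 * 2 ^ a * (s + 1) := by
      have : 2 ^ d ≤ 2 ^ a := Nat.pow_le_pow_right (by norm_num) hd
      rw [Nat.mul_succ]
      omega
    refine h2.mono le_rfl ?_ h3 h3
    rintro g ⟨i, rfl⟩
    revert i
    refine Fin.lastCases ?_ (fun i => ?_)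
    · right
      change (fun x => (HCircuit.snoc C hd w φ).val x (Fin.last (n + s))) = _
      funext x
      change Fin.snoc (α := fun _ => Bool) (C.val x) (φ fun j => C.val x (w j)) (Fin.last (n + s)) = _
      rw [Fin.snoc_last]
    · left
      refine ⟨i, ?_⟩
      funext x
      change Fin.snoc (α := fun _ => Bool) (C.val x) (φ fun j => C.val x (w j)) (Fin.castSucc i) = _
      rw [Fin.snoc_castSucc]

theorem EXP (hSHN : SHN_stmt) : EXP_stmt := by
  intro a n s C o
  have h1 := (EXP_aux hSHN C).mono (G' := {fun x => C.val x o}) le_rfl (by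
    rintro g rfl
    exact ⟨o, rfl⟩) le_rfl le_rfl
  obtain ⟨s', hs', C', o', _, h2⟩ := h1.toCircuit
  exact ⟨s', hs'.trans (Nat.le_succ _), C', o', h2⟩

end Pool.Agent.HM
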